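import Pool.Agent.K7.H51.FV.Cls
import Pool.Agent.R781.VS.Growth

/-!
# The Singer conjecture for an inductively defined class of Davis manifolds

Let `L` be the flag complex of the finite graph `G`, a homology manifold with the homology of the `(n-1)`-sphere
(`HSph n G`). The Davis complex of the right-angled Coxeter group `W G` is a contractible real homology `n`-manifold
(a topological manifold if `L` is a combinatorial sphere), and its quotients by the torsion-free subgroups of finite
index of `W G` are closed aspherical `n`-manifolds.

`Cls n G D` (`Pool.Agent.K7.H51.FV.Cls`; the full subcomplex on `D` is to be a sphere of dimension `n - 1`) is the smallest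
class which contains

* everything of dimension at most three (`low`);
* the joins of its members (`join`);
* for `n = 2 m + 2`: the `D` for which the vertices whose links are not in the class span a subcomplex of dimension at
  most `m` (`even`);
* for odd `n ≥ 3`: the `D` such that the links of all the edges are in the class and one of the following holds: there is a
  vertex `v` such that the vertices of `D` which are different from `v` and not adjacent to `v` span no triangle (`far`); or
  `D` is not a join and has at most `3 n - 1` vertices (`few`); or `D` contains an edge, which is in no induced 4-cycle, whose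
  contraction is in the class (`contract`).

So for example all the flag homology spheres are in it in which every link of even dimension `2 m ≥ 4` is a join or has
at most `6 m + 2` vertices or contains a vertex whose non-neighbours span no triangle.

The proof. (i) The vertices `F` not adjacent to `v` in a flag homology sphere `E` (other than `v`) span an acyclic
complex, and so do those of the links. If `F` spans no triangle then it is a tree, its edges are not contained in
induced 4-cycles and can be contracted, and a suspension is reached. (ii) If the link of `v` is a join of `s`
subcomplexes then all but at most `|F| - 1` of them are join factors of `E`. If `E` is not a join and has at most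
`3 n - 1` vertices then the factors of the link have the same property, equality holds everywhere, and an induction
shows that each vertex of `E` has a neighbour with exactly two non-neighbours (`leaf`).
-/

set_option autoImplicit false

namespace Pool.Agent.Results.MP_f80465_gt.InductiveClass

open Pool.Agent.W907.SG Pool.Agent.W907.SM Pool.Agent.Y132.SI Pool.Agent.K7.H51.FV
open Pool.Agent.TH652.Above (HSph chi_sign lv_univ singer_of_above)

/-- Let the flag complex of the finite graph `G` be a real homology manifold with the real homology of the
`(n-1)`-sphere which is in the class `Cls`. (1) For every full subgraph of `G` the reduced `ℓ²`-homology of the Davis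
complex of its right-angled Coxeter group vanishes in the degrees `i > n / 2`. (2) The reduced `ℓ²`-homology of the
Davis complex of `W G` vanishes in all degrees `i ≠ n / 2`. (3) If `n = 2 m` then `(-1)^m χ(W G) ≥ 0`, where
`χ(W G) = ∑_T (-1/2)^|T|` over the cliques `T`. (4) For each `ε > 0` there is a finite set `E` of nontrivial elements of
`W G` such that for every subgroup `H` of finite index of `W G` which contains no conjugate of an element of `E`, and for
all `i`, the `i`-th real Betti number of `H` differs by at most `ε [W G : H]` from `0`, if `2 i ≠ n`, or from
`(-1)^i χ(W G) [W G : H]`, if `2 i = n`. -/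
theorem result : ∀ (n : ℕ) (V : Type) [Fintype V] [LinearOrder V] (G : SimpleGraph V), HSph n G → Cls n G Set.univ →
    (∀ (A : Set V) (i : ℕ), n < 2 * i → LV (G.induce A) i) ∧
    (∀ i : ℕ, 2 * i ≠ n → L2Van G i) ∧
    (∀ m : ℕ, n = 2 * m → 0 ≤ (-1 : ℚ) ^ m * chiW G) ∧
    ∀ ε : ℝ, 0 < ε → ∃ E : Finset (W G), (1 : W G) ∉ E ∧
      ∀ H : Subgroup (W G), H.FiniteIndex → (∀ g ∈ E, ∀ x : W G, x * g * x⁻¹ ∉ H) → ∀ i : ℕ,
        |(Module.finrank ℝ (HInv G H i) : ℝ) -
          (if 2 * i = n then (-1) ^ i * (chiW G : ℝ) else 0) * H.index| ≤ ε * H.index := by
  intro n V _ _ G hS hC
  have hSp : SpD n G Set.univ := by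
    intro S hS' _ i
    have h1 := hS S hS' i
    rw [Set.univ_inter]
    exact h1
  have hQ : QD n G Set.univ := qd_cls hC hSp
  have h0 : ∀ i : ℕ, n < 2 * i → LV (G.induce Set.univ) i := fun i hi => hQ _ (Set.Subset.refl _) i hi
  have h1 : ∀ i : ℕ, 2 * i ≠ n → L2Van G i := fun i hi =>
    singer_of_above hS (fun i hi => (lv_univ G i).1 (h0 i hi) _ _) i hi
  refine ⟨fun A i hi => hQ A (Set.subset_univ _) i hi, h1, ?_, fun ε hε => growth_free G n h1 ε hε⟩
  rintro m rfl
  exact chi_sign G fun i hi => h1 i (by omega)

end Pool.Agent.Results.MP_f80465_gt.InductiveClass
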