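import Pool.Agent.K7.H51.FV.Dz
import Pool.Agent.R781.VS.Growth

/-!
# The Singer conjecture for the Davis manifolds of flag spheres with few vertices

Let `L` be the flag complex of the finite graph `G`, a homology manifold with the homology of the `(n-1)`-sphere
(`HSph n G`). The Davis complex of the right-angled Coxeter group `W G` is a contractible real homology `n`-manifold
(a topological manifold if `L` is a combinatorial sphere), and its quotients by the torsion-free subgroups of finite
index of `W G` are closed aspherical `n`-manifolds.

The theorem: the conjecture holds if `L` has at most `(5 n + 4) / 2` vertices. More generally it holds if each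
indecomposable join factor of `L` has dimension at most three, or dimension `e - 1` and at most `3 e - 1` vertices.

The proof. (i) Let `F` be the set of the vertices of a flag homology sphere `E` of dimension `e - 1` which are different
from `v` and not adjacent to `v`. If the link of `v` is a join of `s` subcomplexes then all but at most `|F| - 1` of them are
join factors of `E`. Therefore `E` is a join of `r` nonempty subcomplexes for some `r` such that it has at least
`3 e - r` vertices (`dec`). (ii) If `E` is not a join and has at most `3 e - 1` vertices then the link of `v` is a join of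
exactly `|F| - 1` subcomplexes which have the same property, and an induction shows that each vertex of `E` has a neighbour
with exactly two non-neighbours (`leaf`), from which the vanishing theorem follows by contracting an edge and the
induction on the dimension. (iii) The equality `f = 3 n - r` is inherited by the links (`Dz.link`). (iv) So is the condition
`4 f + u ≤ 10 n + 8`, where `f` is the number of the vertices and `u` that of those with only one non-neighbour, and the
spheres of even dimension at least four which are not joins and satisfy it have at most `3 n - 1` vertices.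
-/

set_option autoImplicit false

namespace Pool.Agent.Results.MP_f80465_gt.LinearVertexBound

open Pool.Agent.W907.SG Pool.Agent.W907.SM Pool.Agent.Y132.SI Pool.Agent.K7.H51.FV
open Pool.Agent.TH652.Above (HSph chi_sign lv_univ singer_of_above)

/-- `G` is a join of subgraphs (the classes of a colouring `c`), in each of which all the cliques have at most four
elements, or which is not a join of two nonempty subgraphs and has at most `3 e - 1` vertices, where `e` is the number of
the elements of a clique. -/
def SmallFactors {V : Type} (G : SimpleGraph V) : Prop :=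
  ∃ c : V → ℕ, (∀ u v : V, c u ≠ c v → G.Adj u v) ∧ ∀ j : ℕ,
    (∀ T : Finset V, G.IsClique (T : Set V) → (∀ x ∈ T, c x = j) → T.card ≤ 4) ∨
    ((∀ A B : Set V, A.Nonempty → B.Nonempty → A ∪ B = {v | c v = j} → ∃ x ∈ A, ∃ y ∈ B, ¬ G.Adj x y) ∧
      ∃ F : Finset V, G.IsClique (F : Set V) ∧ (∀ x ∈ F, c x = j) ∧ {v | c v = j}.ncard + 1 ≤ 3 * F.card)

/-- Let the flag complex of the finite graph `G` be a real homology manifold with the real homology of the
`(n-1)`-sphere. (1) If `SmallFactors G` then for every full subgraph of `G` the reduced `ℓ²`-homology of the Davis complex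
of its right-angled Coxeter group vanishes in the degrees `i > n / 2`. Suppose that `SmallFactors G`, or that `G` has at
most `(5 n + 4) / 2` vertices. Then: (2) The reduced `ℓ²`-homology of the Davis complex of `W G` vanishes in all
degrees `i ≠ n / 2`. (3) If `n = 2 m` then `(-1)^m χ(W G) ≥ 0`, where `χ(W G) = ∑_T (-1/2)^|T|` over the cliques `T`.
(4) For each `ε > 0` there is a finite set `E` of nontrivial elements of `W G` such that for every subgroup `H` of
finite index of `W G` which contains no conjugate of an element of `E`, and for all `i`, the `i`-th real Betti number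
of `H` differs by at most `ε [W G : H]` from `0`, if `2 i ≠ n`, or from `(-1)^i χ(W G) [W G : H]`, if `2 i = n`. -/
theorem result : ∀ (n : ℕ) (V : Type) [Fintype V] [LinearOrder V] (G : SimpleGraph V), HSph n G →
    (SmallFactors G → ∀ (A : Set V) (i : ℕ), n < 2 * i → LV (G.induce A) i) ∧
    (SmallFactors G ∨ 2 * Fintype.card V ≤ 5 * n + 4 →
      (∀ i : ℕ, 2 * i ≠ n → L2Van G i) ∧
      (∀ m : ℕ, n = 2 * m → 0 ≤ (-1 : ℚ) ^ m * chiW G) ∧
      ∀ ε : ℝ, 0 < ε → ∃ E : Finset (W G), (1 : W G) ∉ E ∧
        ∀ H : Subgroup (W G), H.FiniteIndex → (∀ g ∈ E, ∀ x : W G, x * g * x⁻¹ ∉ H) → ∀ i : ℕ,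
          |(Module.finrank ℝ (HInv G H i) : ℝ) -
            (if 2 * i = n then (-1) ^ i * (chiW G : ℝ) else 0) * H.index| ≤ ε * H.index) := by
  intro n V _ _ G hS
  have hSp : SpD n G Set.univ := by
    intro S hS' _ i
    have h1 := hS S hS' i
    rw [Set.univ_inter]
    exact h1
  have hQ : SmallFactors G → QD n G Set.univ := by
    rintro ⟨c, hc, h⟩
    refine qd_factors hSp c hc fun j k hk => ?_
    rcases h j with h1 | ⟨hI, F, hF, hFc, hcard⟩
    · obtain ⟨T, hT, hTD, hTk⟩ := hk.facet
      refine qd_low hk ?_
      rw [← hTk]
      exact h1 T hT fun x hx => hTD hx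
    · have h1 := hk.card_le hF hFc
      refine qd_irr hk ?_ (by omega)
      rintro ⟨A, B, hA, hB, hAB, hadj⟩
      obtain ⟨x, hx, y, hy, hxy⟩ := hI A B hA hB hAB
      exact hxy (hadj x hx y hy)
  refine ⟨fun hT A i hi => hQ hT A (Set.subset_univ _) i hi, fun hT => ?_⟩
  have h0 : ∀ i : ℕ, n < 2 * i → LV (G.induce Set.univ) i := by
    intro i hi
    rcases hT with hT | hT
    · exact hQ hT Set.univ (Set.Subset.refl _) i hi
    · refine lv_of_card hSp ?_ i hi
      rwa [Set.ncard_univ, Nat.card_eq_fintype_card]
  have h1 : ∀ i : ℕ, 2 * i ≠ n → L2Van G i := fun i hi =>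
    singer_of_above hS (fun i hi => (lv_univ G i).1 (h0 i hi) _ _) i hi
  refine ⟨h1, ?_, fun ε hε => growth_free G n h1 ε hε⟩
  rintro m rfl
  exact chi_sign G fun i hi => h1 i (by omega)

end Pool.Agent.Results.MP_f80465_gt.LinearVertexBound
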