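import Pool.Agent.K7.H17.SG.Real
import Pool.Agent.R781.VS.Growth

/-!
# The Singer conjecture for the Davis manifolds of balanced flag spheres with sparse diagrams

Let `L` be the flag complex of the finite graph `G`, a homology manifold over the field with two elements with the
homology of the `(n-1)`-sphere (`HSph2 n G`). The Davis complex of the right-angled Coxeter group `W G` is then a
contractible homology `n`-manifold (a topological manifold if `L` is a combinatorial sphere), and its quotients by the
torsion-free subgroups of finite index of `W G` are closed aspherical `n`-manifolds.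

`L` is balanced if its vertices have a proper colouring with `n` colours. The diagram `diag n G col` is the graph on
the set of the colours in which `c ≠ c'` are joined if the link of some simplex with `n - 2` vertices, none of them of
the colours `c`, `c'`, is a circle with more than four vertices. For example, the Coxeter complexes of finite Coxeter
groups are balanced, and their diagrams are the Coxeter diagrams (forests with degrees at most three).

`Good k n G`: `L` is balanced, and (a) the diagram is a forest with degrees at most three and `n ≤ 2 k + 1`, or, more
generally, (b) there is a set `N` of at most `k` colours such that every set `K` of colours which is connected in the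
diagram satisfies `|K \ N| ≤ |K ∩ N| + 1`.

The proof: a direct sum theorem (if the missing colours of a simplex fall into two parts without edges of the diagram
between them then the link of the simplex is a join), the vanishing theorem for complexes of dimension `d` with `d + 1`
colours in spheres of dimension `2 d`, and, for (a), the orientation of the edges of a tree with an odd number of
vertices to the sides with an odd number of vertices.
-/

set_option autoImplicit false

namespace Pool.Agent.Results.MP_f80465_gt.SparseDiagrams

open Pool.Agent.W907.SG Pool.Agent.W907.SM Pool.Agent.Y132.SI Pool.Agent.K7.H17.SG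
open Pool.Agent.TH652.Above (chi_sign lv_univ)

/-- Let the flag complex of the finite graph `G` be a homology manifold over the field with two elements with the
homology of the `(n-1)`-sphere. Suppose that `Good k n G`, or that the vertices of `G` outside a set `B`, which spans a
subcomplex of dimension less than `k`, have links which are `Good (k - 1) (n - 1)`. (1) For every full subgraph of `G`
the reduced `ℓ²`-homology of the Davis complex of its right-angled Coxeter group vanishes in the degrees `i > k`.
(2) The reduced `ℓ²`-homology of the Davis complex of `W G` vanishes in the degrees `i > k` and `i < n - k`; thus in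
all the degrees `i ≠ n / 2` if `2 k ≤ n`. (3) If `2 k ≤ n` and `n = 2 m` then `(-1)^m χ(W G) ≥ 0`, where
`χ(W G) = ∑_T (-1/2)^|T|` over the cliques `T`. (4) If `2 k ≤ n` then for each `ε > 0` there is a finite set `E` of
nontrivial elements of `W G` such that for every subgroup `H` of finite index of `W G` which contains no conjugate of
an element of `E`, and for all `i`, the `i`-th real Betti number of `H` differs by at most `ε [W G : H]` from `0`, if
`2 i ≠ n`, or from `(-1)^i χ(W G) [W G : H]`, if `2 i = n`. -/
theorem result : ∀ (n k : ℕ) (V : Type) [Fintype V] [LinearOrder V] (G : SimpleGraph V), HSph2 n G →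
    (Good k n G ∨ (1 ≤ k ∧ ∃ B : Set V,
      (∀ T : Finset V, G.IsClique (T : Set V) → (T : Set V) ⊆ B → T.card ≤ k) ∧
      ∀ v : V, v ∉ B → Good (k - 1) (n - 1) (G.induce (lk G {v})))) →
    (∀ (A : Set V) (i : ℕ), k < i → LV (G.induce A) i) ∧
    (∀ i : ℕ, k < i ∨ i + k < n → L2Van G i) ∧
    (2 * k ≤ n → (∀ m : ℕ, n = 2 * m → 0 ≤ (-1 : ℚ) ^ m * chiW G) ∧
      ∀ ε : ℝ, 0 < ε → ∃ E : Finset (W G), (1 : W G) ∉ E ∧
        ∀ H : Subgroup (W G), H.FiniteIndex → (∀ g ∈ E, ∀ x : W G, x * g * x⁻¹ ∉ H) → ∀ i : ℕ,
          |(Module.finrank ℝ (HInv G H i) : ℝ) -
            (if 2 * i = n then (-1) ^ i * (chiW G : ℝ) else 0) * H.index| ≤ ε * H.index) := by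
  intro n k V _ _ G hS hG
  have hQ := Q_good1 hS.sp hG
  have hA : ∀ i : ℕ, k < i → L2Van G i := fun i hi => (lv_univ G i).1 (hQ.2 Set.univ i (by omega)) _ _
  have h0 : ∀ i : ℕ, k < i ∨ i + k < n → L2Van G i := by
    rintro i (hi | hi)
    · exact hA i hi
    · exact Pool.Agent.TH652.Dual.l2_duality (n := n) hS.real (i := i) (j := n - i) (by omega)
        (hA (n - i) (by omega))
  refine ⟨fun A i hi => hQ.2 A i (by omega), h0, fun hk => ?_⟩
  have h1 : ∀ i : ℕ, 2 * i ≠ n → L2Van G i := fun i hi => h0 i (by omega)
  refine ⟨?_, fun ε hε => growth_free G n h1 ε hε⟩
  rintro m rfl
  exact chi_sign G fun i hi => h1 i (by omega)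

end Pool.Agent.Results.MP_f80465_gt.SparseDiagrams
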